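import Pool.Agent.Run7.h942.SO.Fin

/-!
# Semigroup orbits with independent escape rates
-/

set_option autoImplicit false

open Filter Topology

namespace Pool.Agent.Results.MP_be2dd8_ag.IndependentEscapeRates

/-- `α` escapes to infinity under the iterates of `f`. -/
def Escapes (f : Polynomial ℂ) (α : ℂ) : Prop :=
  Tendsto (fun n : ℕ => ‖(fun z => f.eval z)^[n] α‖) atTop atTop

/-- The escape rate of `α` under `f`: the limit of `log |f^n(α)| / (deg f)^n` (it exists and is
positive if `deg f ≥ 2` and `α` escapes, see `Run7.h942.SO.escape_lim`). -/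
noncomputable def rate (f : Polynomial ℂ) (α : ℂ) : ℝ :=
  limUnder atTop fun n : ℕ => Real.log ‖(fun z => f.eval z)^[n] α‖ / (f.natDegree : ℝ) ^ n

/-- The set `S` of the exponent tuples `n` with `(f_i^{n_i}(α_i))_i` in the zero set of `T` is a
finite union of sets `γ + (H ∩ ℕ^N)`, `H` a subgroup of `ℤ^N`. -/
def FiniteUnionOfCosets {N : ℕ} (f : Fin N → Polynomial ℂ) (α : Fin N → ℂ)
    (T : Set (MvPolynomial (Fin N) ℂ)) : Prop :=
  ∃ (k : ℕ) (γ : Fin k → Fin N → ℕ) (H : Fin k → AddSubgroup (Fin N → ℤ)),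
    {n : Fin N → ℕ | ∀ p ∈ T,
        MvPolynomial.eval (fun i => Nat.iterate (fun z => (f i).eval z) (n i) (α i)) p = 0}
      = {n : Fin N → ℕ | ∃ j : Fin k, ∃ h ∈ H j,
          (∀ i, 0 ≤ h i) ∧ ∀ i, (n i : ℤ) = (γ j i : ℤ) + h i}

/-- **Dynamical Mordell-Lang for semigroup orbits with independent escape rates.** Let every `α_i`
either escape to infinity under `f_i`, of degree at least `2` (`i ∈ E`), or have a finite orbit.
Suppose that the degrees `deg f_i`, `i ∈ E`, are powers of one integer (for example all equal) and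
the escape rates `G_i`, `i ∈ E`, are linearly independent over `ℚ`, or, for arbitrary degrees, that
for every nonzero integer vector `a` supported in `E` the numbers `|∑ a_i G_i (deg f_i)^{n_i}|` tend
to infinity with `n`. Then for EVERY closed set `V` the set of the `n` with `(f_i^{n_i}(α_i))_i` in
`V` is a finite union of sets `γ + (H ∩ ℕ^N)`. -/
theorem result :
    ∀ (N : ℕ) (f : Fin N → Polynomial ℂ) (α : Fin N → ℂ) (E : Finset (Fin N)),
      (∀ i ∈ E, 2 ≤ (f i).natDegree) →
      (∀ i ∈ E, Escapes (f i) (α i)) →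
      (∀ i, i ∉ E → (Set.range fun n : ℕ => (fun z => (f i).eval z)^[n] (α i)).Finite) →
      (((∃ D : ℕ, 2 ≤ D ∧ ∀ i ∈ E, ∃ e : ℕ, (f i).natDegree = D ^ e) ∧
          LinearIndependent ℚ (fun i : {i : Fin N // i ∈ E} => rate (f i.1) (α i.1))) ∨
        (∀ a : Fin N → ℤ, a ≠ 0 → (∀ i, i ∉ E → a i = 0) →
          Tendsto (fun n : Fin N → ℕ =>
            |∑ i, (a i : ℝ) * rate (f i) (α i) * ((f i).natDegree : ℝ) ^ (n i)|) atTop atTop)) →
      ∀ T : Set (MvPolynomial (Fin N) ℂ), FiniteUnionOfCosets f α T := by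
  intro N f α E hd hE hfin hH T
  have hr : ∀ i ∈ E, Tendsto (fun n : ℕ =>
      Real.log ‖(fun z => (f i).eval z)^[n] (α i)‖ / ((f i).natDegree : ℝ) ^ n) atTop
        (𝓝 (rate (f i) (α i))) := by
    intro i hi
    obtain ⟨G, _, h⟩ := Run7.h942.SO.escape_lim (f i) (hd i hi) (α i) (hE i hi)
    have : rate (f i) (α i) = G := h.limUnder_eq
    rw [this]
    exact h
  refine Run7.h942.SO.final α f E (fun i => rate (f i) (α i)) hd hE hr hfin ?_ T
  rcases hH with ⟨⟨D, hD, hdD⟩, hG⟩ | hH
  · exact Run7.h942.SO.H_of_lin (fun i => (f i).natDegree) E _ D hD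
      (fun i hi => ⟨hd i hi, hdD i hi⟩) hG
  · exact hH

end Pool.Agent.Results.MP_be2dd8_ag.IndependentEscapeRates
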